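import Mathlib

set_option autoImplicit false

namespace Pool.Agent.Results.MP_336050_an.NoMinimalTuple

open Matrix

/-- The orbit `{A₁^{k₁} A₂^{k₂} ⋯ Aₙ^{kₙ} x : k₁, …, kₙ ≥ 0}` of the vector `x` under the tuple `A`. -/
def orbit {n : ℕ} (A : Fin n → Matrix (Fin n) (Fin n) ℝ) (x : Fin n → ℝ) : Set (Fin n → ℝ) :=
  {y | ∃ k : Fin n → ℕ, y = (List.ofFn (fun i => A i ^ k i)).prod *ᵥ x}

/-- Common eigenvectors of commuting operators inside an invariant subspace. -/
lemma common_eigenvector {V : Type*} [AddCommGroup V] [Module ℂ V] [FiniteDimensional ℂ V]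
    {ι : Type*} (f : ι → Module.End ℂ V) (hf : ∀ i j, f i * f j = f j * f i) :
    ∀ (m : ℕ) (W : Submodule ℂ V), Module.finrank ℂ W = m → W ≠ ⊥ →
      (∀ i, ∀ w ∈ W, f i w ∈ W) → ∃ v ∈ W, v ≠ 0 ∧ ∀ i, ∃ c : ℂ, f i v = c • v := by
  intro m
  induction m using Nat.strong_induction_on with
  | _ m ih =>
    intro W hW hne hinv
    by_cases hsc : ∀ i, ∃ c : ℂ, ∀ w ∈ W, f i w = c • w
    · obtain ⟨v, hv, hv0⟩ := Submodule.exists_mem_ne_zero_of_ne_bot hne
      refine ⟨v, hv, hv0, fun i => ?_⟩
      obtain ⟨c, hc⟩ := hsc i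
      exact ⟨c, hc v hv⟩
    · push Not at hsc
      obtain ⟨i, hi⟩ := hsc
      have : Nontrivial W := Submodule.nontrivial_iff_ne_bot.mpr hne
      obtain ⟨μ, hμ⟩ := Module.End.exists_eigenvalue ((f i).restrict (hinv i))
      obtain ⟨u, hu⟩ := hμ.exists_hasEigenvector
      have hu1 : f i (u : V) = μ • (u : V) := by
        have := hu.apply_eq_smul
        have h2 := congrArg (Subtype.val) this
        simpa using h2
      have hu0 : (u : V) ≠ 0 := by
        intro h
        exact hu.2 (Subtype.ext h)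
      let W' : Submodule ℂ V := W ⊓ LinearMap.ker (f i - algebraMap ℂ (Module.End ℂ V) μ)
      have hmem : ∀ w, w ∈ W' ↔ w ∈ W ∧ f i w = μ • w := by
        intro w
        simp only [W', Submodule.mem_inf, LinearMap.mem_ker, LinearMap.sub_apply,
          Module.algebraMap_end_apply, sub_eq_zero]
      have hlt : W' < W := by
        refine lt_of_le_of_ne inf_le_left ?_
        intro h
        obtain ⟨w, hw, hw2⟩ := hi μ
        apply hw2
        have : w ∈ W' := by rw [h]; exact hw
        exact ((hmem w).1 this).2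
      have hne' : W' ≠ ⊥ := by
        intro h
        have : (u : V) ∈ W' := (hmem _).2 ⟨u.2, hu1⟩
        rw [h] at this
        exact hu0 ((Submodule.mem_bot ℂ).1 this)
      have hinv' : ∀ j, ∀ w ∈ W', f j w ∈ W' := by
        intro j w hw
        obtain ⟨h1, h2⟩ := (hmem w).1 hw
        refine (hmem _).2 ⟨hinv j w h1, ?_⟩
        have : f i (f j w) = f j (f i w) := by
          have := congrArg (fun g : Module.End ℂ V => g w) (hf i j)
          simpa using this
        rw [this, h2, map_smul]
      have hfr : Module.finrank ℂ W' < m := by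
        rw [← hW]
        exact Submodule.finrank_lt_finrank_of_lt hlt
      obtain ⟨v, hv, hv0, hv1⟩ := ih _ hfr W' rfl hne' hinv'
      exact ⟨v, hlt.le hv, hv0, hv1⟩

/-- **No.** For every `n ≥ 3` and all pairwise commuting real `n × n` matrices `A₁, …, Aₙ` there is a
non-zero vector whose orbit under the tuple is not dense in `ℝⁿ`. -/
theorem result : ∀ n : ℕ, 3 ≤ n → ∀ A : Fin n → Matrix (Fin n) (Fin n) ℝ,
    (∀ i j, A i * A j = A j * A i) → ∃ x : Fin n → ℝ, x ≠ 0 ∧ ¬ Dense (orbit A x) := by
  intro n hn A hA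
  -- the complexified operators
  let B : Fin n → Matrix (Fin n) (Fin n) ℂ := fun i => (A i).map (algebraMap ℝ ℂ)
  have hB : ∀ i j, B i * B j = B j * B i := by
    intro i j
    simp only [B]
    rw [← Matrix.map_mul, ← Matrix.map_mul, hA i j]
  have hT : ∀ i j, Matrix.toLin' (B i) * Matrix.toLin' (B j)
      = Matrix.toLin' (B j) * Matrix.toLin' (B i) := by
    intro i j
    rw [Module.End.mul_eq_comp, Module.End.mul_eq_comp, ← Matrix.toLin'_mul, ← Matrix.toLin'_mul,
      hB i j]
  have : Nonempty (Fin n) := ⟨⟨0, by omega⟩⟩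
  have htop : (⊤ : Submodule ℂ (Fin n → ℂ)) ≠ ⊥ := top_ne_bot
  obtain ⟨v, -, hv0, hv⟩ := common_eigenvector (fun i => Matrix.toLin' (B i)) hT _ ⊤ rfl htop
    (fun _ _ _ => Submodule.mem_top)
  -- real and imaginary parts
  let a : Fin n → ℝ := fun i => (v i).re
  let b : Fin n → ℝ := fun i => (v i).im
  have hab : ∀ i, ∃ c d : ℝ, A i *ᵥ a = c • a - d • b ∧ A i *ᵥ b = d • a + c • b := by
    intro i
    obtain ⟨c, hc⟩ := hv i
    refine ⟨c.re, c.im, ?_, ?_⟩
    · ext k
      have hk := congrArg Complex.re (congrFun hc k)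
      simp only [Matrix.toLin'_apply, Matrix.mulVec, dotProduct, B, Matrix.map_apply,
        Complex.coe_algebraMap, Complex.re_sum, Pi.smul_apply,
        smul_eq_mul, Complex.mul_re, Complex.ofReal_re, Complex.ofReal_im, zero_mul,
        sub_zero] at hk
      simp only [Matrix.mulVec, dotProduct, Pi.sub_apply, Pi.smul_apply, smul_eq_mul, a, b]
      exact hk
    · ext k
      have hk := congrArg Complex.im (congrFun hc k)
      simp only [Matrix.toLin'_apply, Matrix.mulVec, dotProduct, B, Matrix.map_apply,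
        Complex.coe_algebraMap, Complex.im_sum, Pi.smul_apply,
        smul_eq_mul, Complex.mul_im, Complex.ofReal_re, Complex.ofReal_im, zero_mul,
        add_zero] at hk
      simp only [Matrix.mulVec, dotProduct, Pi.add_apply, Pi.smul_apply, smul_eq_mul, a, b]
      rw [hk]; ring
  let W : Submodule ℝ (Fin n → ℝ) := Submodule.span ℝ {a, b}
  have haW : a ∈ W := Submodule.subset_span (by simp)
  have hbW : b ∈ W := Submodule.subset_span (by simp)
  have hinv : ∀ i, ∀ w ∈ W, A i *ᵥ w ∈ W := by
    intro i w hw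
    obtain ⟨c, d, h1, h2⟩ := hab i
    obtain ⟨s, t, rfl⟩ := Submodule.mem_span_pair.1 hw
    rw [Matrix.mulVec_add, Matrix.mulVec_smul, Matrix.mulVec_smul, h1, h2]
    refine W.add_mem (W.smul_mem _ (W.sub_mem (W.smul_mem _ haW) (W.smul_mem _ hbW)))
      (W.smul_mem _ (W.add_mem (W.smul_mem _ haW) (W.smul_mem _ hbW)))
  have hpow : ∀ (i : Fin n) (k : ℕ), ∀ w ∈ W, (A i ^ k) *ᵥ w ∈ W := by
    intro i k
    induction k with
    | zero => intro w hw; simpa using hw
    | succ k ih =>
      intro w hw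
      rw [pow_succ, ← Matrix.mulVec_mulVec]
      exact ih _ (hinv i w hw)
  have hlist : ∀ L : List (Matrix (Fin n) (Fin n) ℝ), (∀ M ∈ L, ∀ w ∈ W, M *ᵥ w ∈ W) →
      ∀ w ∈ W, L.prod *ᵥ w ∈ W := by
    intro L
    induction L with
    | nil => intro _ w hw; simpa using hw
    | cons M L ih =>
      intro h w hw
      rw [List.prod_cons, ← Matrix.mulVec_mulVec]
      exact h M (by simp) _ (ih (fun M' hM' => h M' (by simp [hM'])) w hw)
  -- the span is a proper closed subspace
  have hWtop : W ≠ ⊤ := by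
    intro h
    have h1 : Module.finrank ℝ W ≤ 2 := by
      have hle := finrank_span_le_card (R := ℝ) (M := Fin n → ℝ) ({a, b} : Set (Fin n → ℝ))
      refine hle.trans ?_
      rw [Set.toFinset_card]
      have : Fintype.card ({a, b} : Set (Fin n → ℝ)) ≤ 2 := by
        rw [← Set.toFinset_card]
        simp only [Set.toFinset_insert, Set.toFinset_singleton]
        exact Finset.card_le_two
      exact this
    rw [h, finrank_top, Module.finrank_fin_fun] at h1
    omega
  have hclosed : IsClosed (W : Set (Fin n → ℝ)) := W.closed_of_finiteDimensional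
  have key : ∀ x ∈ W, ¬ Dense (orbit A x) := by
    intro x hx hd
    apply hWtop
    have hsub : orbit A x ⊆ (W : Set (Fin n → ℝ)) := by
      rintro y ⟨k, rfl⟩
      refine hlist _ ?_ x hx
      intro M hM
      rw [List.mem_ofFn] at hM
      obtain ⟨i, rfl⟩ := hM
      exact hpow i (k i)
    have h1 : closure (orbit A x) ⊆ (W : Set (Fin n → ℝ)) := closure_minimal hsub hclosed
    rw [hd.closure_eq] at h1
    exact Submodule.eq_top_iff'.2 (fun y => h1 (Set.mem_univ y))
  by_cases ha : a = 0
  · refine ⟨b, ?_, key b hbW⟩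
    intro hb
    apply hv0
    ext k
    apply Complex.ext
    · exact congrFun ha k
    · exact congrFun hb k
  · exact ⟨a, ha, key a haW⟩

end Pool.Agent.Results.MP_336050_an.NoMinimalTuple
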